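import Pool.Agent.Y223.G.Stm6
import Pool.Agent.Y434.G.GCH

/-!
# The charts of the invariants satisfy the hypotheses of the theorem on atlases: finite groups
-/

set_option autoImplicit false

namespace Pool.Agent.Y678.G

open IsLocalRing Pool.Agent.Y223.G

theorem af_le {k O L K : Type} [CommRing k] [CommRing O]
    [Field L] [Field K] [Algebra k O] [Algebra O K] [Algebra k K]
    [IsScalarTower k O K] [Algebra L K]
    (lk : ∀ c : k, ∃ x : L, algebraMap L K x = algebraMap k K c) (s : k)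
    (lOL : ∀ o : OL O (K := K) s, ∃ x : L, algebraMap L K x = (o : K))
    {m : ℕ} {z : Fin (m + 1) → K} (hz0 : z 0 ≠ 0)
    (E : IntermediateField L K) (hE : ∀ j, z j / z 0 ∈ E) {d : ℕ} {F : K}
    (hF : F ∈ FS k z d) :
    AF (OL O (K := K) s) z d F ≤ Pool.Agent.Y434.G.toSub s lOL E :=
  Pool.Agent.Y434.G.af_mem lk s lOL (AlgEquiv.refl : K ≃ₐ[k] K) hz0 0 E hE hF

theorem t_GCHG : S_CHB → S_LDG → S_SMAF → S_REGG → S_GCHG := by
  intro hCH hLD hSM hRG k O M Y K G Ω _ _ _ _ _ _ _ _ _ _ _ _ _ _ _ _ _ _ _ ι ρ T m z hH s hDD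
    Tb N _ 𝔔 p l τ hs hL hin d Φ hd hΦ
  have hsK : algebraMap k K s ≠ 0 := fun h => hs (hH.injk (by rw [h, map_zero]))
  -- constants
  have lk : ∀ c : k, ∃ x : M, algebraMap M K x = algebraMap k K c := by
    intro c
    rw [IsScalarTower.algebraMap_apply k O K]
    exact hH.lo _
  have lOL : ∀ o : OL O (K := K) s, ∃ x : M, algebraMap M K x = (o : K) := by
    rintro ⟨x, n, y, h⟩
    obtain ⟨s', hs'⟩ := lk s
    obtain ⟨y', hy'⟩ := hH.lo y
    refine ⟨y' / s' ^ n, ?_⟩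
    rw [map_div₀, map_pow, hy', hs', ← h]
    field_simp
  have hOK : ∀ o : O, algebraMap O K o ∈ OL O (K := K) s := fun o => ⟨0, o, by
    rw [pow_zero, one_mul]⟩
  -- the algebras
  obtain ⟨A, hA⟩ : ∃ A : Ω → Subalgebra (OL O (K := K) s) K, A = fun ω =>
      AF (OL O (K := K) s) (z ω) d (Φ ω) := ⟨_, rfl⟩
  have hgen : ∀ g ω (a : Fin (m + 1) → ℕ), ρ g ((∏ j, z ω j ^ a j) / Φ ω) =
      (∏ j, z (g • ω) j ^ a j) / Φ (g • ω) := by
    intro g ω a
    rw [map_div₀, map_prod, hΦ.eqv]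
    congr 1
    refine Finset.prod_congr rfl fun j _ => ?_
    rw [map_pow, hH.eqv]
  have hst : ∀ g ω x, x ∈ A ω → ρ g x ∈ A (g • ω) := by
    intro g ω x hx
    rw [hA] at hx ⊢
    simp only [] at hx ⊢
    unfold AF at hx
    induction hx using Algebra.adjoin_induction with
    | mem x hx =>
      obtain ⟨y, ⟨a, ha, rfl⟩, rfl⟩ := hx
      rw [hgen]
      exact Algebra.subset_adjoin ⟨_, ⟨a, ha, rfl⟩, rfl⟩
    | algebraMap r =>
      rw [hL.com]
      exact Subalgebra.algebraMap_mem _ _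
    | add x y _ _ hx hy =>
      rw [map_add]
      exact Subalgebra.add_mem _ hx hy
    | mul x y _ _ hx hy =>
      rw [map_mul]
      exact Subalgebra.mul_mem _ hx hy
  have hft : ∀ ω, Algebra.FiniteType (OL O (K := K) s) (A ω) := by
    intro ω
    rw [hA, ← Subalgebra.fg_iff_finiteType]
    unfold AF
    rw [Subalgebra.fg_def]
    refine ⟨_, ?_, rfl⟩
    have h1 : {y : K | ∃ x ∈ MN (z ω) d, y = x / Φ ω} = (fun x => x / Φ ω) '' MN (z ω) d := by
      ext y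
      constructor
      · rintro ⟨x, hx, rfl⟩
        exact ⟨x, hx, rfl⟩
      · rintro ⟨x, hx, rfl⟩
        exact ⟨x, hx, rfl⟩
    rw [h1]
    exact (Pool.Agent.Y434.G.MN_finite _ d).image _
  have hld : ∀ (S : Finset Ω) (ω : Ω), ω ∉ S → (⨆ ω' ∈ S, A ω').LinearDisjoint (A ω) := by
    intro S ω hω
    refine hLD (OL O (K := K) s) M K Subtype.val_injective (fun o => lOL o) ?_
      (⨆ ω' ∈ S, A ω') (A ω) _ _ ?_ ?_ (hH.ld S ω hω)
    · intro x
      obtain ⟨a, b, hb, hab⟩ := hH.lf x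
      refine ⟨⟨_, hOK a⟩, ⟨_, hOK b⟩, ?_, hab⟩
      intro h
      apply hb
      apply hH.inj
      rw [map_zero]
      exact congrArg Subtype.val h
    · have h1 : (⨆ ω' ∈ S, A ω') ≤ Pool.Agent.Y434.G.toSub s lOL (IntermediateField.adjoin M
          {y : K | ∃ ω' ∈ S, ∃ j, y = z ω' j / z ω' 0}) := by
        refine iSup₂_le fun ω' hω' => ?_
        rw [hA]
        refine af_le lk s lOL (hH.z0 ω' 0) _ (fun j => ?_) (hΦ.mem ω')
        exact IntermediateField.subset_adjoin M _ ⟨ω', hω', j, rfl⟩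
      exact fun a ha => h1 ha
    · have h1 : A ω ≤ Pool.Agent.Y434.G.toSub s lOL (IntermediateField.adjoin M
          {y : K | ∃ j, y = z ω j / z ω 0}) := by
        rw [hA]
        refine af_le lk s lOL (hH.z0 ω 0) _ (fun j => ?_) (hΦ.mem ω)
        exact IntermediateField.subset_adjoin M _ ⟨j, rfl⟩
      exact fun a ha => h1 ha
  have hfx : ∀ ω g, g • ω = ω → A ω ≤ Algebra.adjoin (OL O (K := K) s)
      {x | x ∈ A ω ∧ ρ g x = x} := by
    intro ω g hg
    have h1 : Algebra.adjoin (OL O (K := K) s) {y : K | ∃ x ∈ MN (z ω) d, y = x / Φ ω} ≤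
        Algebra.adjoin (OL O (K := K) s) {x | x ∈ A ω ∧ ρ g x = x} := by
      refine Algebra.adjoin_mono ?_
      rintro y ⟨x, ⟨a, ha, rfl⟩, rfl⟩
      refine ⟨?_, ?_⟩
      · rw [hA]
        exact Algebra.subset_adjoin ⟨_, ⟨a, ha, rfl⟩, rfl⟩
      · rw [hgen, hg]
    have h2 : A ω = Algebra.adjoin (OL O (K := K) s)
        {y : K | ∃ x ∈ MN (z ω) d, y = x / Φ ω} := by rw [hA]; rfl
    exact h2 ▸ h1
  have hrg : IsRegularRing (⨆ ω, A ω : Subalgebra (OL O (K := K) s) K) := by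
    rw [hA]
    exact hRG k O K Ω s hsK m z hH.z0 hH.rg d Φ hd hΦ.mem hΦ.ne
  have key6 : ∀ i ω (q : Ideal (AF (OL O (K := K) s) (z ω) d (Φ ω))) [q.IsPrime],
      q.comap (algebraMap (OL O (K := K) s) (AF (OL O (K := K) s) (z ω) d (Φ ω))) = 𝔔 i →
      Algebra.IsSmoothAt (OL O (K := K) s) q := by
    intro i ω q hq hq𝔔
    obtain ⟨g, hg1, hg⟩ := hin i
    refine hSM k O K hH.inj s hsK m (z ω) (hH.z0 ω) {x | ∃ o, x = T g o - o} ?_ d (Φ ω) hd
      (hΦ.mem ω) (hΦ.ne ω) q ?_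
    · intro j q' hq' h
      exact hH.sm ω j q' ⟨g, hg1, fun o => h _ ⟨o, rfl⟩⟩
    · rintro e ⟨o, rfl⟩ h
      have h1 : Tb g ⟨algebraMap O K o, hOK o⟩ - ⟨algebraMap O K o, hOK o⟩ ∈ 𝔔 i := hg _
      rw [← hq𝔔, Ideal.mem_comap] at h1
      have h2 : (⟨algebraMap O K (T g o - o), h⟩ : AF (OL O (K := K) s) (z ω) d (Φ ω)) =
          algebraMap (OL O (K := K) s) (AF (OL O (K := K) s) (z ω) d (Φ ω))
            (Tb g ⟨algebraMap O K o, hOK o⟩ - ⟨algebraMap O K o, hOK o⟩) := by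
        apply Subtype.ext
        show algebraMap O K (T g o - o) = ((Tb g ⟨algebraMap O K o, hOK o⟩ :
          OL O (K := K) s) : K) - algebraMap O K o
        rw [map_sub, ← hH.com]
        congr 1
        exact hL.com g ⟨algebraMap O K o, hOK o⟩
      exact h2 ▸ h1
  have hsm : ∀ i ω (q : Ideal (A ω)) [q.IsPrime],
      q.comap (algebraMap (OL O (K := K) s) (A ω)) = 𝔔 i →
      Algebra.IsSmoothAt (OL O (K := K) s) q := by
    subst hA
    intro i ω q hq hq𝔔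
    exact @key6 i ω q hq hq𝔔
  have hB : Blk k (OL O (K := K) s) K G Ω ρ A := ⟨hst, hft, hld, hfx, hrg⟩
  have hfin := hCH k (OL O (K := K) s) K G Ω ρ Tb N 𝔔 p l τ hL A hB hsm Y ι hH.fixK
  unfold GRG CG
  rw [hA] at hfin
  exact hfin

end Pool.Agent.Y678.G
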